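import Pool.Agent.K1H88.DF.Stm
import Pool.Agent.K1H89.DP.Prod
import Pool.Agent.K1H59.DP.Scale

/-! Project DF, piece ELT: an integer of `F` which is divisible by the prime of `u₀` and by little
else. -/

set_option autoImplicit false

namespace Pool.Agent.K1H68.DF

open Pool.Agent.K1H88.DF Module NumberField IsDedekindDomain
open Pool.Agent.K1H88.DP (Kp pl vn cont)
open scoped nonZeroDivisors WithZero

set_option linter.unusedSectionVars false

variable {F : Type} [Field F] [NumberField F]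

theorem c_add (x y : 𝓞 F) : ((x + y : 𝓞 F) : F) = (x : F) + (y : F) := rfl

theorem c_mul (x y : 𝓞 F) : ((x * y : 𝓞 F) : F) = (x : F) * (y : F) := rfl

theorem c_one : ((1 : 𝓞 F) : F) = 1 := rfl

theorem c_zero : ((0 : 𝓞 F) : F) = 0 := rfl

theorem c_nat (n : ℕ) : ((n : 𝓞 F) : F) = n := map_natCast (algebraMap (𝓞 F) F) n

theorem n_le {p : Nat.Primes} (u : F →+* Kp p) (r : 𝓞 F) : ‖u (r : F)‖ ≤ 1 :=
  Pool.Agent.K1H89.DP.norm_le_one_of_integral' u (RingOfIntegers.isIntegral_coe r)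

/-- the prime ideal of an embedding -/
noncomputable def PP {p : Nat.Primes} (u : F →+* Kp p) : Ideal (𝓞 F) where
  carrier := {r | ‖u (r : F)‖ < 1}
  add_mem' := by
    intro x y hx hy
    show ‖u ((x + y : 𝓞 F) : F)‖ < 1
    rw [c_add, map_add]
    exact (Pool.Agent.K1H89.DP.norm_add_le' _ _).trans_lt (max_lt hx hy)
  zero_mem' := by
    show ‖u ((0 : 𝓞 F) : F)‖ < 1
    rw [c_zero, map_zero, norm_zero]
    exact one_pos
  smul_mem' := by
    intro c x hx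
    show ‖u ((c * x : 𝓞 F) : F)‖ < 1
    have hx' : ‖u (x : F)‖ < 1 := hx
    rw [c_mul, map_mul, norm_mul]
    calc ‖u (c : F)‖ * ‖u (x : F)‖ ≤ 1 * ‖u (x : F)‖ :=
          mul_le_mul_of_nonneg_right (n_le u c) (norm_nonneg _)
      _ < 1 := by rw [one_mul]; exact hx'

theorem mem_PP {p : Nat.Primes} (u : F →+* Kp p) (r : 𝓞 F) : r ∈ PP u ↔ ‖u (r : F)‖ < 1 := Iff.rfl

theorem norm_of_not_mem {p : Nat.Primes} {u : F →+* Kp p} {r : 𝓞 F} (h : r ∉ PP u) :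
    ‖u (r : F)‖ = 1 :=
  le_antisymm (n_le u r) (not_lt.1 h)

theorem norm_p {p : Nat.Primes} (u : F →+* Kp p) : ‖u (((p : ℕ) : 𝓞 F) : F)‖ = ((p : ℕ) : ℝ)⁻¹ := by
  have h1 : u (((p : ℕ) : 𝓞 F) : F) = ((((p : ℕ) : ℚ)) : Kp p) := by
    rw [c_nat, map_natCast, Rat.cast_natCast]
  rw [h1, Pool.Agent.K1H89.DP.norm_rat, Pool.Agent.K1H89.DP.norm_prime_self]

theorem p_mem {p : Nat.Primes} (u : F →+* Kp p) : ((p : ℕ) : 𝓞 F) ∈ PP u := by
  rw [mem_PP, norm_p]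
  exact inv_lt_one_of_one_lt₀ (by exact_mod_cast p.2.one_lt)

theorem PP_prime {p : Nat.Primes} (u : F →+* Kp p) : (PP u).IsPrime := by
  refine ⟨?_, ?_⟩
  · intro h
    have : (1 : 𝓞 F) ∈ PP u := by rw [h]; trivial
    rw [mem_PP, c_one, map_one, norm_one] at this
    exact lt_irrefl _ this
  · intro x y hxy
    by_contra hcon
    push Not at hcon
    rw [mem_PP, c_mul, map_mul, norm_mul, norm_of_not_mem hcon.1, norm_of_not_mem hcon.2] at hxy
    norm_num at hxy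

theorem PP_ne_bot {p : Nat.Primes} (u : F →+* Kp p) : PP u ≠ ⊥ := by
  intro h
  have h1 := p_mem u
  rw [h, Ideal.mem_bot] at h1
  exact p.2.ne_zero (by exact_mod_cast h1)

theorem exists_w (P : Ideal (𝓞 F)) (hP0 : P ≠ ⊥) :
    ∃ (h : ℕ) (w : 𝓞 F), 0 < h ∧ w ≠ 0 ∧ P ^ h = Ideal.span {w} := by
  have h1 : P ∈ (Ideal (𝓞 F))⁰ := mem_nonZeroDivisors_of_ne_zero hP0
  have h2 := pow_card_eq_one (x := ClassGroup.mk0 (⟨P, h1⟩ : (Ideal (𝓞 F))⁰))
  rw [← map_pow, SubmonoidClass.mk_pow, ClassGroup.mk0_eq_one_iff] at h2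
  obtain ⟨w, hw⟩ := h2
  refine ⟨Fintype.card (ClassGroup (𝓞 F)), w, Fintype.card_pos, ?_, ?_⟩
  · rintro rfl
    rw [Submodule.span_zero_singleton] at hw
    exact pow_ne_zero _ hP0 hw
  · rw [hw]

theorem ord (P : Ideal (𝓞 F)) (hP : P.IsPrime) (hP0 : P ≠ ⊥) (h : ℕ) (w : 𝓞 F)
    (hw : P ^ h = Ideal.span {w}) (r : 𝓞 F) (hr : r ≠ 0) :
    ∃ (m : ℕ) (b : 𝓞 F), r ^ h = w ^ m * b ∧ b ∉ P ∧ ∀ k, r ∈ P ^ k ↔ k ≤ m := by
  classical
  let v : HeightOneSpectrum (𝓞 F) := ⟨P, hP, hP0⟩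
  set m := (Associates.mk v.asIdeal).count (Associates.mk (Ideal.span {r} : Ideal (𝓞 F))).factors
    with hm
  have hv : v.intValuation r = WithZero.exp (-(m : ℤ)) := v.intValuation_if_neg hr
  have hk : ∀ k, r ∈ P ^ k ↔ k ≤ m := by
    intro k
    have := v.intValuation_le_pow_iff_mem r k
    rw [← this, hv, WithZero.exp_le_exp]
    omega
  have h1 : r ^ h ∈ P ^ (m * h) := by
    rw [pow_mul]
    exact Ideal.pow_mem_pow ((hk m).2 le_rfl) h
  have h2 : r ^ h ∉ P ^ (m * h + 1) := by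
    intro hcon
    have h3 := (v.intValuation_le_pow_iff_mem (r ^ h) (m * h + 1)).2 hcon
    rw [map_pow, hv, ← WithZero.exp_nsmul, WithZero.exp_le_exp] at h3
    have h4 : h • (-(m : ℤ)) = -((m : ℤ) * h) := by rw [nsmul_eq_mul]; ring
    rw [h4] at h3
    push_cast at h3
    omega
  have h3 : P ^ (m * h) = Ideal.span {w ^ m} := by
    rw [mul_comm, pow_mul, hw, Ideal.span_singleton_pow]
  rw [h3, Ideal.mem_span_singleton] at h1
  obtain ⟨b, hb⟩ := h1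
  refine ⟨m, b, hb, ?_, hk⟩
  intro hbP
  apply h2
  rw [pow_succ, hb]
  refine Ideal.mul_mem_mul ?_ hbP
  rw [h3]
  exact Ideal.mem_span_singleton_self _

theorem norm_ord {p : Nat.Primes} (u : F →+* Kp p) {P : Ideal (𝓞 F)} (hu : PP u = P) {h m : ℕ}
    {w b r : 𝓞 F} (hr : r ^ h = w ^ m * b) (hb : b ∉ P) :
    ‖u (r : F)‖ ^ h = ‖u (w : F)‖ ^ m := by
  have h1 : (r : F) ^ h = (w : F) ^ m * (b : F) := by
    have := congrArg (fun z : 𝓞 F => (z : F)) hr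
    simpa using this
  have h2 := congrArg (fun z : F => ‖u z‖) h1
  simp only [map_mul, map_pow, norm_mul, norm_pow] at h2
  have h3 : ‖u (b : F)‖ = 1 := norm_of_not_mem (by rw [hu]; exact hb)
  rw [h2, h3, mul_one]

theorem same_of_eq {p : Nat.Primes} (u v : F →+* Kp p) (huv : PP u = PP v) :
    ∀ z, ‖u z‖ = ‖v z‖ := by
  obtain ⟨h, w, hh, hw0, hw⟩ := exists_w (PP u) (PP_ne_bot u)
  have hwn : ‖u (w : F)‖ = ‖v (w : F)‖ := by
    obtain ⟨m, b, e1, e2, e3⟩ := ord (PP u) (PP_prime u) (PP_ne_bot u) h w hw ((p : ℕ) : 𝓞 F)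
      (by exact_mod_cast p.2.ne_zero)
    have hm : 1 ≤ m := (e3 1).1 (by rw [pow_one]; exact p_mem u)
    have f1 := norm_ord u rfl e1 e2
    have f2 := norm_ord v huv.symm e1 e2
    rw [norm_p] at f1 f2
    have f3 : ‖u (w : F)‖ ^ m = ‖v (w : F)‖ ^ m := f1.symm.trans f2
    exact (pow_left_inj₀ (norm_nonneg _) (norm_nonneg _) (by omega)).1 f3
  have hint : ∀ r : 𝓞 F, ‖u (r : F)‖ = ‖v (r : F)‖ := by
    intro r
    by_cases hr : r = 0
    · rw [hr, c_zero, map_zero, map_zero, norm_zero]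
    obtain ⟨m, b, e1, e2, e3⟩ := ord (PP u) (PP_prime u) (PP_ne_bot u) h w hw r hr
    have f1 := norm_ord u rfl e1 e2
    have f2 := norm_ord v huv.symm e1 e2
    rw [hwn, ← f2] at f1
    exact (pow_left_inj₀ (norm_nonneg _) (norm_nonneg _) hh.ne').1 f1
  intro z
  obtain ⟨x, y, _, rfl⟩ := IsFractionRing.div_surjective (A := 𝓞 F) z
  rw [map_div₀, map_div₀, norm_div, norm_div]
  have h1 : ‖u (algebraMap (𝓞 F) F x)‖ = ‖v (algebraMap (𝓞 F) F x)‖ := hint x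
  have h2 : ‖u (algebraMap (𝓞 F) F y)‖ = ‖v (algebraMap (𝓞 F) F y)‖ := hint y
  rw [h1, h2]

theorem eq_of_mem {q : Nat.Primes} (u : F →+* Kp q) {P : Ideal (𝓞 F)} (hP : P.IsPrime)
    (hP0 : P ≠ ⊥) {h : ℕ} {w : 𝓞 F} (hw : P ^ h = Ideal.span {w}) (hwu : w ∈ PP u) :
    PP u = P := by
  have h1 : P ^ h ≤ PP u := by
    rw [hw, Ideal.span_singleton_le_iff_mem]; exact hwu
  have h2 : P ≤ PP u := (PP_prime u).le_of_pow_le h1
  exact ((hP.isMaximal hP0).eq_of_le (PP_prime u).ne_top h2).symm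

theorem prime_eq {p q : Nat.Primes} (u : F →+* Kp p) (v : F →+* Kp q) (h : PP u = PP v) :
    p = q := by
  by_contra hne
  have hc : IsCoprime ((p : ℕ) : ℤ) ((q : ℕ) : ℤ) :=
    Nat.isCoprime_iff_coprime.2 ((Nat.coprime_primes p.2 q.2).2 fun h2 => hne (Subtype.ext h2))
  obtain ⟨a, b, hab⟩ := hc
  have h1 : (1 : 𝓞 F) ∈ PP u := by
    have h2 : (a : 𝓞 F) * ((p : ℕ) : 𝓞 F) + (b : 𝓞 F) * ((q : ℕ) : 𝓞 F) = 1 := by
      exact_mod_cast congrArg (fun z : ℤ => (z : 𝓞 F)) hab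
    rw [← h2]
    refine Ideal.add_mem _ (Ideal.mul_mem_left _ _ (p_mem u)) (Ideal.mul_mem_left _ _ ?_)
    rw [h]; exact p_mem v
  exact (PP_prime u).ne_top ((Ideal.eq_top_iff_one _).2 h1)

/-- the product of the complex norms is the norm of the ideal -/
theorem prod_complex (a : 𝓞 F) :
    ∏ u : F →+* ℂ, ‖u (a : F)‖ = (Ideal.absNorm (Ideal.span {a} : Ideal (𝓞 F)) : ℝ) := by
  rw [Pool.Agent.K1H59.DP.prod_norm_eq, Ideal.absNorm_span_singleton]
  have h1 : (Algebra.norm ℚ (a : F) : ℚ) = ((Algebra.norm ℤ a : ℤ) : ℚ) :=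
    (Algebra.coe_norm_int a).symm
  rw [h1, Rat.cast_intCast, ← Int.cast_abs, Nat.cast_natAbs]

theorem cont_mul (hPF : S_PF) (a : 𝓞 F) (ha : a ≠ 0) :
    cont F (a : F) 0 * (Ideal.absNorm (Ideal.span {a} : Ideal (𝓞 F)) : ℝ) = 1 := by
  rw [← prod_complex]
  exact hPF F (a : F) (by exact_mod_cast ha)

/-- the product of the norms of `w` -/
theorem prod_w (hPF : S_PF) {p : Nat.Primes} (u₀ : F →+* Kp p) {h : ℕ} {w : 𝓞 F} (hw0 : w ≠ 0)
    (hw : PP u₀ ^ h = Ideal.span {w}) (U : Finset (F →+* Kp p))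
    (hU : ∀ u, u ∈ U ↔ ∀ z, ‖u z‖ = ‖u₀ z‖) :
    (∏ u ∈ U, ‖u (w : F)‖) * ((Ideal.absNorm (PP u₀) : ℝ)) ^ h = 1 := by
  have h1 := cont_mul hPF w hw0
  rw [← hw, map_pow, Nat.cast_pow] at h1
  have h2 : cont F (w : F) 0 = ∏ u ∈ U, ‖u (w : F)‖ := by
    unfold cont
    rw [finprod_eq_single _ p]
    · simp only [map_zero, norm_zero, max_eq_left (norm_nonneg _)]
      symm
      apply Finset.prod_subset (Finset.subset_univ _)
      intro u _ hu
      apply norm_of_not_mem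
      intro hm
      have h3 := eq_of_mem u (PP_prime u₀) (PP_ne_bot u₀) hw hm
      exact hu ((hU u).2 (same_of_eq u u₀ h3))
    · intro q hq
      apply Finset.prod_eq_one
      intro u _
      rw [map_zero, norm_zero, max_eq_left (norm_nonneg _)]
      apply norm_of_not_mem
      intro hm
      have h3 := eq_of_mem u (PP_prime u₀) (PP_ne_bot u₀) hw hm
      exact hq (prime_eq u u₀ h3)
  rw [← h2]; exact h1

theorem prod_le (hPF : S_PF) {p : Nat.Primes} (u₀ : F →+* Kp p) (U : Finset (F →+* Kp p))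
    (hU : ∀ u, u ∈ U ↔ ∀ z, ‖u z‖ = ‖u₀ z‖) (t : ℕ) (a : 𝓞 F) (ha : a ∈ PP u₀ ^ t) :
    (∏ u ∈ U, ‖u (a : F)‖) * ((Ideal.absNorm (PP u₀) : ℝ)) ^ t ≤ 1 := by
  obtain ⟨h, w, hh, hw0, hw⟩ := exists_w (PP u₀) (PP_ne_bot u₀)
  have h1 := prod_w hPF u₀ hw0 hw U hU
  have h2 : a ^ h ∈ Ideal.span {w ^ t} := by
    rw [← Ideal.span_singleton_pow, ← hw, ← pow_mul, mul_comm, pow_mul]
    exact Ideal.pow_mem_pow ha h
  rw [Ideal.mem_span_singleton] at h2
  obtain ⟨b, hb⟩ := h2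
  have h3 : (a : F) ^ h = (w : F) ^ t * (b : F) := by
    have := congrArg (fun z : 𝓞 F => (z : F)) hb
    simpa using this
  have h4 : (∏ u ∈ U, ‖u (a : F)‖) ^ h ≤ (∏ u ∈ U, ‖u (w : F)‖) ^ t := by
    rw [← Finset.prod_pow, ← Finset.prod_pow]
    apply Finset.prod_le_prod
    · intro u _; positivity
    · intro u _
      have h5 := congrArg (fun z : F => ‖u z‖) h3
      simp only [map_mul, map_pow, norm_mul, norm_pow] at h5
      rw [h5]
      calc ‖u (w : F)‖ ^ t * ‖u (b : F)‖ ≤ ‖u (w : F)‖ ^ t * 1 :=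
            mul_le_mul_of_nonneg_left (n_le u b) (by positivity)
        _ = _ := mul_one _
  have h6 : ((∏ u ∈ U, ‖u (a : F)‖) * ((Ideal.absNorm (PP u₀) : ℝ)) ^ t) ^ h ≤ 1 := by
    rw [mul_pow]
    calc (∏ u ∈ U, ‖u (a : F)‖) ^ h * (((Ideal.absNorm (PP u₀) : ℝ)) ^ t) ^ h
        ≤ (∏ u ∈ U, ‖u (w : F)‖) ^ t * (((Ideal.absNorm (PP u₀) : ℝ)) ^ t) ^ h :=
          mul_le_mul_of_nonneg_right h4 (by positivity)
      _ = ((∏ u ∈ U, ‖u (w : F)‖) * ((Ideal.absNorm (PP u₀) : ℝ)) ^ h) ^ t := by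
          rw [mul_pow, ← pow_mul, ← pow_mul, mul_comm t h]
      _ = 1 := by rw [h1, one_pow]
  exact (pow_le_one_iff_of_nonneg (by positivity) hh.ne').1 h6

theorem reps (R : Type) [CommRing R] [IsDedekindDomain R] [Fintype (ClassGroup R)] :
    ∃ J : ClassGroup R → Ideal R, ∀ I : Ideal R, I ≠ ⊥ → ∃ (c : ClassGroup R) (a : R), a ≠ 0 ∧
      a ∈ I ∧ I * J c = Ideal.span {a} := by
  choose R' hR using ClassGroup.mk0_surjective (R := R)
  refine ⟨fun c => (R' c : Ideal R), fun I hI => ?_⟩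
  have h1 : I ∈ (Ideal R)⁰ := mem_nonZeroDivisors_of_ne_zero hI
  obtain ⟨I', hI'⟩ : ∃ I' : (Ideal R)⁰, (I' : Ideal R) = I := ⟨⟨I, h1⟩, rfl⟩
  obtain ⟨c, hc⟩ : ∃ c, c = (ClassGroup.mk0 I')⁻¹ := ⟨_, rfl⟩
  have h2 : ClassGroup.mk0 I' = (ClassGroup.mk0 (R' c))⁻¹ := by
    rw [hR, hc, inv_inv]
  obtain ⟨a, ha0, ha'⟩ := ClassGroup.mk0_eq_mk0_inv_iff.1 h2
  rw [hI'] at ha'
  refine ⟨c, a, ha0, ?_, ha'⟩
  have : a ∈ I * (R' c : Ideal R) := by
    rw [ha']; exact Ideal.mem_span_singleton_self a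
  exact Ideal.mul_le_left this

variable (F) in
theorem mink : ∃ C : ℝ, 1 ≤ C ∧ ∀ I : Ideal (𝓞 F), I ≠ ⊥ → ∃ a ∈ I, a ≠ 0 ∧
    (Ideal.absNorm (Ideal.span {a} : Ideal (𝓞 F)) : ℝ) ≤ C * (Ideal.absNorm I : ℝ) := by
  classical
  obtain ⟨J, hJ⟩ := reps (𝓞 F)
  refine ⟨1 + ∑ c : ClassGroup (𝓞 F), (Ideal.absNorm (J c) : ℝ), ?_, ?_⟩
  · have : 0 ≤ ∑ c : ClassGroup (𝓞 F), (Ideal.absNorm (J c) : ℝ) :=
      Finset.sum_nonneg fun c _ => by positivity
    linarith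
  · intro I hI
    obtain ⟨c, a, ha0, haI, ha⟩ := hJ I hI
    refine ⟨a, haI, ha0, ?_⟩
    rw [← ha, map_mul, Nat.cast_mul, mul_comm]
    apply mul_le_mul_of_nonneg_right _ (by positivity)
    have : (Ideal.absNorm (J c) : ℝ) ≤ ∑ c : ClassGroup (𝓞 F), (Ideal.absNorm (J c) : ℝ) :=
      Finset.single_le_sum (f := fun c => (Ideal.absNorm (J c) : ℝ))
        (fun c _ => by positivity) (Finset.mem_univ c)
    linarith

/-- **ELT** -/
theorem t_ELT (hPF : S_PF) : S_ELT := by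
  classical
  intro F _ _ n hn
  obtain ⟨C, hC, hmink⟩ := mink F
  obtain ⟨k, rfl⟩ : ∃ k, n = k + 2 := ⟨n - 2, by omega⟩
  have hC0 : 0 < C := by linarith
  set D : ℝ := 2 * C ^ ((k + 2) * (k + 1)) with hD
  have hD1 : 2 ≤ D := by
    have : 1 ≤ C ^ ((k + 2) * (k + 1)) := one_le_pow₀ hC
    linarith
  obtain ⟨t₁, ht₁⟩ := pow_unbounded_of_one_lt D (one_lt_two (α := ℝ))
  obtain ⟨Q₀, hQ₀⟩ := exists_nat_ge (C + D)
  have key : ∀ (p : Nat.Primes) (u₀ : F →+* Kp p), ∃ a : F, IsIntegral ℤ a ∧ a ≠ 0 ∧ ‖u₀ a‖ < 1 ∧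
      (Q₀ ≤ (p : ℕ) → 1 / ((p : ℕ) : ℝ) ≤ ‖u₀ a‖) ∧
      ∀ U : Finset (F →+* Kp p), (∀ u, u ∈ U ↔ ∀ z, ‖u z‖ = ‖u₀ z‖) →
        (∏ u ∈ U, ‖u a‖) ^ ((k + 1) * (k + 3)) ≤ 1 / 2 * cont F a 0 ^ ((k + 2) * (k + 1)) := by
    intro p u₀
    set P := PP u₀ with hP
    have hPp := PP_prime u₀
    have hP0 := PP_ne_bot u₀
    set NP : ℕ := Ideal.absNorm P with hNP
    have hNP0 : NP ≠ 0 := by
      rw [hNP, Ne, Ideal.absNorm_eq_zero_iff]; exact hP0
    have hNP1 : NP ≠ 1 := by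
      rw [hNP, Ne, Ideal.absNorm_eq_one_iff]; exact hPp.ne_top
    have hNP2 : (2 : ℝ) ≤ (NP : ℝ) := by
      have : 2 ≤ NP := by omega
      exact_mod_cast this
    set t : ℕ := if Q₀ ≤ NP then 1 else t₁ + 1 with ht
    have ht0 : 1 ≤ t := by rw [ht]; split_ifs <;> omega
    have htX : D ≤ (NP : ℝ) ^ t := by
      rw [ht]
      split_ifs with hc
      · rw [pow_one]
        have : (Q₀ : ℝ) ≤ (NP : ℝ) := by exact_mod_cast hc
        linarith
      · calc D ≤ 2 ^ t₁ := ht₁.le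
          _ ≤ 2 ^ (t₁ + 1) := pow_le_pow_right₀ one_le_two (by omega)
          _ ≤ (NP : ℝ) ^ (t₁ + 1) := pow_le_pow_left₀ (by norm_num) hNP2 _
    obtain ⟨a, haP, ha0, haN⟩ := hmink (P ^ t) (pow_ne_zero _ hP0)
    rw [map_pow, Nat.cast_pow, ← hNP] at haN
    have haPP : a ∈ P := Ideal.pow_le_self (by omega) haP
    refine ⟨(a : F), RingOfIntegers.isIntegral_coe a, by exact_mod_cast ha0, haPP, ?_, ?_⟩
    · intro hQp
      -- the norm of `P` is at least `p`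
      have hpN : (p : ℕ) ∣ NP := by
        by_contra hnd
        have hc : IsCoprime ((p : ℕ) : ℤ) ((NP : ℕ) : ℤ) :=
          Nat.isCoprime_iff_coprime.2 ((Nat.Prime.coprime_iff_not_dvd p.2).2 hnd)
        obtain ⟨x, y, hxy⟩ := hc
        have h1 : (1 : 𝓞 F) ∈ P := by
          have h2 : (x : 𝓞 F) * ((p : ℕ) : 𝓞 F) + (y : 𝓞 F) * ((NP : ℕ) : 𝓞 F) = 1 := by
            exact_mod_cast congrArg (fun z : ℤ => (z : 𝓞 F)) hxy
          rw [← h2]
          exact Ideal.add_mem _ (Ideal.mul_mem_left _ _ (p_mem u₀))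
            (Ideal.mul_mem_left _ _ (Ideal.absNorm_mem P))
        exact hPp.ne_top ((Ideal.eq_top_iff_one _).2 h1)
      have hpN' : (p : ℕ) ≤ NP := Nat.le_of_dvd (Nat.pos_of_ne_zero hNP0) hpN
      have hQN : Q₀ ≤ NP := hQp.trans hpN'
      have ht1 : t = 1 := by rw [ht, if_pos hQN]
      rw [ht1, pow_one] at haN
      have haP2 : a ∉ P ^ 2 := by
        intro hcon
        have h1 : Ideal.absNorm (P ^ 2) ∣ Ideal.absNorm (Ideal.span {a} : Ideal (𝓞 F)) :=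
          Ideal.absNorm_dvd_absNorm_of_le (by rwa [Ideal.span_singleton_le_iff_mem])
        have h2 : Ideal.absNorm (Ideal.span {a} : Ideal (𝓞 F)) ≠ 0 := by
          rw [Ne, Ideal.absNorm_eq_zero_iff, Ideal.span_singleton_eq_bot]
          exact ha0
        have h3 := Nat.le_of_dvd (Nat.pos_of_ne_zero h2) h1
        rw [map_pow, ← hNP] at h3
        have h4 : (NP : ℝ) ^ 2 ≤ (Ideal.absNorm (Ideal.span {a} : Ideal (𝓞 F)) : ℝ) := by
          exact_mod_cast h3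
        have h5 : (Q₀ : ℝ) ≤ (NP : ℝ) := by exact_mod_cast hQN
        nlinarith
      obtain ⟨h, w, hh, hw0, hw⟩ := exists_w P hP0
      obtain ⟨m, b, e1, e2, e3⟩ := ord P hPp hP0 h w hw a ha0
      have hm1 : m = 1 := by
        have g1 : 1 ≤ m := (e3 1).1 (by rw [pow_one]; exact haPP)
        have g2 : ¬ 2 ≤ m := fun h => haP2 ((e3 2).2 h)
        omega
      have f1 := norm_ord u₀ rfl e1 e2
      rw [hm1, pow_one] at f1
      have h6 : ((p : ℕ) : 𝓞 F) ^ h ∈ Ideal.span {w} := by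
        rw [← hw]; exact Ideal.pow_mem_pow (p_mem u₀) h
      rw [Ideal.mem_span_singleton] at h6
      obtain ⟨c, hc⟩ := h6
      have h7 : ((((p : ℕ) : 𝓞 F)) : F) ^ h = (w : F) * (c : F) := by
        have := congrArg (fun z : 𝓞 F => (z : F)) hc
        simpa using this
      have h8 : ‖u₀ ((((p : ℕ) : 𝓞 F)) : F)‖ ^ h ≤ ‖u₀ (w : F)‖ := by
        have h5 := congrArg (fun z : F => ‖u₀ z‖) h7
        simp only [map_mul, map_pow, norm_mul, norm_pow] at h5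
        rw [h5]
        calc ‖u₀ (w : F)‖ * ‖u₀ (c : F)‖ ≤ ‖u₀ (w : F)‖ * 1 :=
              mul_le_mul_of_nonneg_left (n_le u₀ c) (by positivity)
          _ = _ := mul_one _
      rw [← f1, norm_p] at h8
      rw [one_div]
      exact (pow_le_pow_iff_left₀ (by positivity) (norm_nonneg _) hh.ne').1 h8
    · intro U hU
      have h1 := prod_le hPF u₀ U hU t a haP
      rw [← hNP] at h1
      set A : ℝ := ∏ u ∈ U, ‖u (a : F)‖ with hA
      have hA0 : 0 ≤ A := Finset.prod_nonneg fun u _ => norm_nonneg _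
      have h2 := cont_mul hPF a ha0
      set M : ℝ := (Ideal.absNorm (Ideal.span {a} : Ideal (𝓞 F)) : ℝ) with hM
      set X : ℝ := (NP : ℝ) ^ t with hX
      have hX0 : 0 < X := by positivity
      have hM0 : 0 ≤ M := by positivity
      have hMpos : 0 < M := by
        rcases hM0.lt_or_eq with h | h
        · exact h
        · rw [← h, mul_zero] at h2; exact absurd h2 (by norm_num)
      have hc : 1 / (C * X) ≤ cont F (a : F) 0 := by
        have h3 : cont F (a : F) 0 = 1 / M := by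
          rw [eq_div_iff hMpos.ne']; exact h2
        rw [h3]
        exact one_div_le_one_div_of_le hMpos haN
      have hA1 : A ≤ 1 / X := by rwa [le_div_iff₀ hX0]
      have e1 : (k + 1) * (k + 3) = (k + 2) * (k + 1) + (k + 1) := by ring
      have hXk : D ≤ X ^ (k + 1) := htX.trans (le_self_pow₀ (by linarith) (by omega))
      calc A ^ ((k + 1) * (k + 3)) ≤ (1 / X) ^ ((k + 1) * (k + 3)) :=
            pow_le_pow_left₀ hA0 hA1 _
        _ = (1 / X) ^ ((k + 2) * (k + 1)) * (1 / X ^ (k + 1)) := by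
            rw [e1, pow_add, one_div_pow X (k + 1)]
        _ ≤ (1 / X) ^ ((k + 2) * (k + 1)) * (1 / D) :=
            mul_le_mul_of_nonneg_left (one_div_le_one_div_of_le (by linarith) hXk) (by positivity)
        _ = 1 / 2 * (1 / (C * X)) ^ ((k + 2) * (k + 1)) := by
            rw [hD, one_div_pow, one_div_pow, mul_pow]
            field_simp
        _ ≤ 1 / 2 * cont F (a : F) 0 ^ ((k + 2) * (k + 1)) := by
            apply mul_le_mul_of_nonneg_left _ (by norm_num)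
            exact pow_le_pow_left₀ (by positivity) hc _
  choose A hA1 hA2 hA3 hA4 hA5 using key
  refine ⟨Q₀, fun p => ∏ u₀ : F →+* Kp p, ‖u₀ (A p u₀)‖, ?_, ?_⟩
  · intro p
    apply Finset.prod_pos
    intro u₀ _
    rw [norm_pos_iff]
    exact (map_ne_zero u₀).2 (hA2 p u₀)
  · intro p u₀
    refine ⟨A p u₀, hA1 p u₀, hA2 p u₀, hA3 p u₀, ?_, hA4 p u₀, ?_⟩
    · show ∏ u₀ : F →+* Kp p, ‖u₀ (A p u₀)‖ ≤ ‖u₀ (A p u₀)‖
      rw [← Finset.mul_prod_erase Finset.univ (fun u₀ : F →+* Kp p => ‖u₀ (A p u₀)‖)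
        (Finset.mem_univ u₀)]
      calc ‖u₀ (A p u₀)‖ * ∏ x ∈ Finset.univ.erase u₀, ‖x (A p x)‖
          ≤ ‖u₀ (A p u₀)‖ * 1 := by
            apply mul_le_mul_of_nonneg_left _ (norm_nonneg _)
            exact Finset.prod_le_one (fun x _ => norm_nonneg _) fun x _ => (hA3 p x).le
        _ = _ := mul_one _
    · intro U hU
      have := hA5 p u₀ U hU
      have e1 : (k + 2 - 1) * (k + 2 + 1) = (k + 1) * (k + 3) := rfl
      have e2 : (k + 2) * (k + 2 - 1) = (k + 2) * (k + 1) := rfl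
      rw [e1, e2]
      exact this

end Pool.Agent.K1H68.DF

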